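import Mathlib

/-! # Size Ramsey numbers versus matchings: the random host graph (counting form)

`V → V → Fin q` is the sample space; for a colour `a` the directed relation is `r s y := (c y s = a)`. -/

set_option autoImplicit false

namespace Run7.h683.SR

open Finset

variable {V : Type} [Fintype V] [DecidableEq V]

/-- The columns in which no set `{s | h s = some i}`, `i ∈ I`, is monochromatic of colour `a`. -/
def badCol {q : ℕ} (a : Fin q) (h : V → Option V) (I : Finset V) : Finset (V → Fin q) :=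
  Finset.univ.filter (fun x => ∀ i ∈ I, ∃ s, h s = some i ∧ x s ≠ a)

theorem badCol_card {q : ℕ} (a : Fin q) (h : V → Option V) (Δ : ℕ) (I : Finset V)
    (hI : ∀ i ∈ I, (Finset.univ.filter (fun s => h s = some i)).card ≤ Δ) :
    ((badCol a h I).card : ℝ) ≤ (q : ℝ) ^ (Fintype.card V) * (1 - 1 / (q : ℝ) ^ Δ) ^ I.card := by
  classical
  have hq : 0 < q := a.pos
  have hqR : (0 : ℝ) < q := by exact_mod_cast hq
  have hq1 : (1 : ℝ) ≤ q := by exact_mod_cast hq
  have hqΔ : (1 : ℝ) ≤ (q : ℝ) ^ Δ := one_le_pow₀ hq1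
  have hqΔ0 : (0 : ℝ) < (q : ℝ) ^ Δ := by positivity
  have hθ : 0 ≤ 1 - 1 / (q : ℝ) ^ Δ := by
    have : 1 / (q : ℝ) ^ Δ ≤ 1 := by
      rw [div_le_one hqΔ0]; exact hqΔ
    linarith
  induction I using Finset.induction_on with
  | empty =>
    have : (badCol a h ∅) = Finset.univ := by
      ext x; simp [badCol]
    rw [this]
    simp
  | insert i I hi ih =>
    have ih' := ih (fun j hj => hI j (Finset.mem_insert_of_mem hj))
    have hiΔ := hI i (Finset.mem_insert_self _ _)
    set B := badCol a h I with hB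
    set B' := badCol a h (insert i I) with hB'
    -- the complement of `B'` in `B`
    set K := B.filter (fun x => ∀ s, h s = some i → x s = a) with hK
    have hsplit : B'.card + K.card ≤ B.card := by
      rw [← Finset.card_union_of_disjoint]
      · apply Finset.card_le_card
        intro x hx
        rw [Finset.mem_union] at hx
        rcases hx with hx | hx
        · simp only [hB', hB, badCol, Finset.mem_filter, Finset.mem_univ, true_and] at hx ⊢
          intro j hj
          exact hx j (Finset.mem_insert_of_mem hj)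
        · exact (Finset.mem_filter.1 hx).1
      · rw [Finset.disjoint_left]
        intro x hx hx'
        have h1 := (Finset.mem_filter.1 hx').2
        simp only [hB', badCol, Finset.mem_filter, Finset.mem_univ, true_and] at hx
        obtain ⟨s, hs, hs'⟩ := hx i (Finset.mem_insert_self _ _)
        exact hs' (h1 s hs)
    let g : (V → Fin q) → (V → Fin q) := fun x s => if h s = some i then a else x s
    have himg : B.image g ⊆ K := by
      intro y hy
      obtain ⟨x, hx, rfl⟩ := Finset.mem_image.1 hy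
      rw [hK, Finset.mem_filter]
      refine ⟨?_, ?_⟩
      · simp only [hB, badCol, Finset.mem_filter, Finset.mem_univ, true_and] at hx ⊢
        intro j hj
        obtain ⟨s, hs, hs'⟩ := hx j hj
        refine ⟨s, hs, ?_⟩
        have hji : j ≠ i := by
          rintro rfl; exact hi hj
        have : h s ≠ some i := by
          rw [hs]; intro hh; exact hji (Option.some.inj hh)
        simp only [g, this, if_false]
        exact hs'
      · intro s hs
        simp [g, hs]
    have hfib : B.card ≤ q ^ Δ * (B.image g).card := by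
      apply Finset.card_le_mul_card_image
      intro y hy
      -- restriction to the block
      let S := Finset.univ.filter (fun s => h s = some i)
      have hinj : Set.InjOn (fun (x : V → Fin q) (s : S) => x s) ((B.filter (fun x => g x = y) : Finset (V → Fin q)) : Set (V → Fin q)) := by
        intro x hx x' hx' hxx
        have hx1 : g x = y := (Finset.mem_filter.1 (Finset.mem_coe.1 hx)).2
        have hx2 : g x' = y := (Finset.mem_filter.1 (Finset.mem_coe.1 hx')).2
        funext s
        by_cases hs : h s = some i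
        · have := congrFun hxx ⟨s, by simp [S, hs]⟩
          exact this
        · have e1 := congrFun hx1 s
          have e2 := congrFun hx2 s
          simp only [g, hs, if_false] at e1 e2
          rw [e1, e2]
      have hle : (B.filter (fun x => g x = y)).card ≤ (Finset.univ : Finset (S → Fin q)).card := by
        apply Finset.card_le_card_of_injOn _ (fun x hx => Finset.mem_univ _) hinj
      refine hle.trans ?_
      rw [Finset.card_univ, Fintype.card_fun, Fintype.card_fin, Fintype.card_coe]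
      exact Nat.pow_le_pow_right hq hiΔ
    have h1 : (B.card : ℝ) ≤ (q : ℝ) ^ Δ * K.card := by
      have : B.card ≤ q ^ Δ * K.card := hfib.trans (Nat.mul_le_mul_left _ (Finset.card_le_card himg))
      exact_mod_cast this
    have h2 : (B'.card : ℝ) + K.card ≤ B.card := by exact_mod_cast hsplit
    have h3 : (B.card : ℝ) / (q : ℝ) ^ Δ ≤ K.card := by
      rw [div_le_iff₀ hqΔ0]; linarith
    have h4 : (B'.card : ℝ) ≤ B.card * (1 - 1 / (q : ℝ) ^ Δ) := by
      have : (B.card : ℝ) * (1 - 1 / (q : ℝ) ^ Δ) = B.card - B.card / (q : ℝ) ^ Δ := by ring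
      rw [this]; linarith
    calc (B'.card : ℝ) ≤ B.card * (1 - 1 / (q : ℝ) ^ Δ) := h4
      _ ≤ ((q : ℝ) ^ (Fintype.card V) * (1 - 1 / (q : ℝ) ^ Δ) ^ I.card) * (1 - 1 / (q : ℝ) ^ Δ) :=
          mul_le_mul_of_nonneg_right ih' hθ
      _ = (q : ℝ) ^ (Fintype.card V) * (1 - 1 / (q : ℝ) ^ Δ) ^ (insert i I).card := by
          rw [Finset.card_insert_of_notMem hi, pow_succ]; ring

/-- The samples failing for the data `(a, h, I, Y)`. -/
def badSet {q : ℕ} (a : Fin q) (h : V → Option V) (I Y : Finset V) : Finset (V → V → Fin q) :=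
  Fintype.piFinset (fun y => if y ∈ Y then badCol a h I else Finset.univ)

theorem badSet_card {q : ℕ} (a : Fin q) (h : V → Option V) (Δ : ℕ) (I Y : Finset V)
    (hI : ∀ i ∈ I, (Finset.univ.filter (fun s => h s = some i)).card ≤ Δ) :
    ((badSet a h I Y).card : ℝ) ≤ ((q : ℝ) ^ (Fintype.card V)) ^ (Fintype.card V)
      * (1 - 1 / (q : ℝ) ^ Δ) ^ (I.card * Y.card) := by
  classical
  unfold badSet
  rw [Fintype.card_piFinset]
  push_cast
  have hb := badCol_card a h Δ I hI
  calc ∏ y, (((if y ∈ Y then badCol a h I else Finset.univ).card : ℕ) : ℝ)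
      ≤ ∏ y : V, ((q : ℝ) ^ (Fintype.card V) * (if y ∈ Y then (1 - 1 / (q : ℝ) ^ Δ) ^ I.card else 1)) := by
        apply Finset.prod_le_prod
        · intro y _; positivity
        · intro y _
          by_cases hy : y ∈ Y
          · simp only [hy, if_true]; exact hb
          · simp [hy]
    _ = ((q : ℝ) ^ (Fintype.card V)) ^ (Fintype.card V)
      * (1 - 1 / (q : ℝ) ^ Δ) ^ (I.card * Y.card) := by
        rw [Finset.prod_mul_distrib, Finset.prod_const, Finset.card_univ, Finset.prod_ite_mem,
          Finset.univ_inter, Finset.prod_const, ← pow_mul (1 - 1 / (q : ℝ) ^ Δ)]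

/-- Pseudo-randomness of a relation. -/
def PR (r : V → V → Prop) (Δ L : ℕ) : Prop :=
  ∀ (h : V → Option V) (I Y : Finset V),
    (∀ i ∈ I, (Finset.univ.filter (fun s => h s = some i)).card ≤ Δ) →
    L * Fintype.card V ≤ I.card * Y.card →
    ∃ i ∈ I, ∃ y ∈ Y, ∀ s, h s = some i → r s y

theorem exists_colouring (q Δ L : ℕ) (hq : 0 < q) (hV : 0 < Fintype.card V)
    (hL : 4 * ((Fintype.card V : ℝ) + 1) * q * (1 - 1 / (q : ℝ) ^ Δ) ^ L < 1) :
    ∃ c : V → V → Fin q, ∀ a : Fin q, PR (fun s y => c y s = a) Δ L := by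
  classical
  by_contra hcon
  push Not at hcon
  have hqR : (0 : ℝ) < q := by exact_mod_cast hq
  have hq1 : (1 : ℝ) ≤ q := by exact_mod_cast hq
  have hqΔ : (1 : ℝ) ≤ (q : ℝ) ^ Δ := one_le_pow₀ hq1
  have hqΔ0 : (0 : ℝ) < (q : ℝ) ^ Δ := by positivity
  set θ := 1 - 1 / (q : ℝ) ^ Δ with hθdef
  have hθ : 0 ≤ θ := by
    have : 1 / (q : ℝ) ^ Δ ≤ 1 := by
      rw [div_le_one hqΔ0]; exact hqΔ
    linarith
  have hθ1 : θ ≤ 1 := by
    have : 0 ≤ 1 / (q : ℝ) ^ Δ := by positivity
    linarith
  set N := Fintype.card V with hN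
  -- good index data
  let Idx : Finset (Fin q × (V → Option V) × Finset V × Finset V) :=
    Finset.univ.filter (fun p => (∀ i ∈ p.2.2.1, (Finset.univ.filter (fun s => p.2.1 s = some i)).card ≤ Δ)
      ∧ L * N ≤ p.2.2.1.card * p.2.2.2.card)
  have hcover : (Finset.univ : Finset (V → V → Fin q)) ⊆
      Idx.biUnion (fun p => badSet p.1 p.2.1 p.2.2.1 p.2.2.2) := by
    intro c _
    obtain ⟨a, ha⟩ := hcon c
    unfold PR at ha
    push Not at ha
    obtain ⟨h, I, Y, h1, h2, h3⟩ := ha
    rw [Finset.mem_biUnion]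
    refine ⟨(a, h, I, Y), ?_, ?_⟩
    · simp only [Idx, Finset.mem_filter, Finset.mem_univ, true_and]
      exact ⟨h1, h2⟩
    · simp only [badSet, Fintype.mem_piFinset]
      intro y
      by_cases hy : y ∈ Y
      · simp only [hy, if_true, badCol, Finset.mem_filter, Finset.mem_univ, true_and]
        intro i hi
        obtain ⟨s, hs, hs'⟩ := h3 i hi y hy
        exact ⟨s, hs, hs'⟩
      · simp [hy]
  have h1 : (Finset.univ : Finset (V → V → Fin q)).card ≤
      ∑ p ∈ Idx, (badSet p.1 p.2.1 p.2.2.1 p.2.2.2).card :=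
    (Finset.card_le_card hcover).trans Finset.card_biUnion_le
  have h2 : (((q : ℝ) ^ N) ^ N) ≤ ∑ p ∈ Idx, ((badSet p.1 p.2.1 p.2.2.1 p.2.2.2).card : ℝ) := by
    have h3 : (Finset.univ : Finset (V → V → Fin q)).card = (q ^ N) ^ N := by
      rw [Finset.card_univ, Fintype.card_fun, Fintype.card_fun, Fintype.card_fin]
    rw [h3] at h1
    exact_mod_cast h1
  have h3 : ∑ p ∈ Idx, ((badSet p.1 p.2.1 p.2.2.1 p.2.2.2).card : ℝ)
      ≤ ∑ p ∈ Idx, (((q : ℝ) ^ N) ^ N * θ ^ (L * N)) := by
    apply Finset.sum_le_sum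
    intro p hp
    simp only [Idx, Finset.mem_filter, Finset.mem_univ, true_and] at hp
    refine (badSet_card p.1 p.2.1 Δ p.2.2.1 p.2.2.2 hp.1).trans ?_
    apply mul_le_mul_of_nonneg_left _ (by positivity)
    exact pow_le_pow_of_le_one hθ hθ1 hp.2
  rw [Finset.sum_const, nsmul_eq_mul] at h3
  have h4 : (Idx.card : ℝ) ≤ q * ((N + 1) ^ N * (2 ^ N * 2 ^ N)) := by
    have : Idx.card ≤ Fintype.card (Fin q × (V → Option V) × Finset V × Finset V) :=
      Finset.card_le_univ _
    rw [Fintype.card_prod, Fintype.card_prod, Fintype.card_prod, Fintype.card_fun, Fintype.card_option,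
      Fintype.card_finset, Fintype.card_fin] at this
    exact_mod_cast this
  have hqN : (0 : ℝ) < ((q : ℝ) ^ N) ^ N := by positivity
  have h5 : (1 : ℝ) ≤ (q * ((N + 1) ^ N * (2 ^ N * 2 ^ N))) * θ ^ (L * N) := by
    have h6 := h2.trans h3
    have h7 : (Idx.card : ℝ) * (((q : ℝ) ^ N) ^ N * θ ^ (L * N)) ≤
        (q * ((N + 1) ^ N * (2 ^ N * 2 ^ N))) * (((q : ℝ) ^ N) ^ N * θ ^ (L * N)) := by
      apply mul_le_mul_of_nonneg_right h4 (by positivity)
    have h8 : ((q : ℝ) ^ N) ^ N * 1 ≤ ((q : ℝ) ^ N) ^ N *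
        ((q * ((N + 1) ^ N * (2 ^ N * 2 ^ N))) * θ ^ (L * N)) := by
      calc ((q : ℝ) ^ N) ^ N * 1 = ((q : ℝ) ^ N) ^ N := mul_one _
        _ ≤ _ := h6.trans h7
        _ = _ := by ring
    exact le_of_mul_le_mul_left h8 hqN
  have h6 : (q * ((N + 1) ^ N * (2 ^ N * 2 ^ N))) * θ ^ (L * N) ≤
      (4 * ((N : ℝ) + 1) * q * θ ^ L) ^ N := by
    have e1 : (4 * ((N : ℝ) + 1) * q * θ ^ L) ^ N = (q : ℝ) ^ N * ((N + 1) ^ N * (2 ^ N * 2 ^ N)) * θ ^ (L * N) := by
      rw [pow_mul, mul_pow, mul_pow, mul_pow]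
      have : (4 : ℝ) ^ N = 2 ^ N * 2 ^ N := by
        rw [← mul_pow]; norm_num
      rw [this]; ring
    rw [e1]
    apply mul_le_mul_of_nonneg_right _ (by positivity)
    apply mul_le_mul_of_nonneg_right _ (by positivity)
    calc (q : ℝ) = (q : ℝ) ^ 1 := (pow_one _).symm
      _ ≤ (q : ℝ) ^ N := pow_le_pow_right₀ hq1 hV
  have h7 : (4 * ((N : ℝ) + 1) * q * θ ^ L) ^ N < 1 := by
    apply pow_lt_one₀ (by positivity) hL hV.ne'
  linarith

end Run7.h683.SR
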