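import Pool.Agent.Run7.h683.SR1

/-! # Colouring the square of a bounded degree graph; few bad vertices; the matching step -/

set_option autoImplicit false

namespace Run7.h683.SR

open Finset

/-- Greedy colouring of a symmetric relation with at most `d` partners per element. -/
theorem greedy_colouring {W : Type} [Fintype W] [DecidableEq W] (K : W → W → Prop)
    (hsymm : ∀ v w, K v w → K w v) (hirr : ∀ v, ¬ K v v) (d : ℕ)
    (hd : ∀ v, {w | K v w}.ncard ≤ d) :
    ∃ χ : W → Fin (d + 1), ∀ v w, K v w → χ v ≠ χ w := by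
  classical
  have main : ∀ S : Finset W, ∃ χ : W → Fin (d + 1), ∀ v ∈ S, ∀ w ∈ S, K v w → χ v ≠ χ w := by
    intro S
    induction S using Finset.induction_on with
    | empty => exact ⟨fun _ => 0, by simp⟩
    | insert u S hu ih =>
      obtain ⟨χ, hχ⟩ := ih
      have hcard : ((Finset.univ.filter (fun w => K u w)).image χ).card < (Finset.univ : Finset (Fin (d+1))).card := by
        have h1 : ((Finset.univ.filter (fun w => K u w)).image χ).card ≤ d := by
          refine Finset.card_image_le.trans ?_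
          have := hd u
          have h2 : (({w | K u w} : Set W)) = ((Finset.univ.filter (fun w => K u w) : Finset W) : Set W) := by
            ext w; simp
          rw [h2, Set.ncard_coe_finset] at this
          exact this
        rw [Finset.card_univ, Fintype.card_fin]; omega
      obtain ⟨x, -, hx⟩ := Finset.exists_mem_notMem_of_card_lt_card hcard
      refine ⟨Function.update χ u x, ?_⟩
      intro v hv w hw hK
      have hvw : v ≠ w := by rintro rfl; exact hirr _ hK
      by_cases h1 : v = u
      · subst h1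
        have h2 : w ≠ v := fun h => hvw h.symm
        rw [Function.update_self, Function.update_of_ne h2]
        intro hh
        apply hx
        rw [hh]
        exact Finset.mem_image_of_mem _ (by simp [hK])
      · by_cases h2 : w = u
        · subst h2
          rw [Function.update_self, Function.update_of_ne h1]
          intro hh
          apply hx
          rw [← hh]
          exact Finset.mem_image_of_mem _ (by simp [hsymm _ _ hK])
        · rw [Function.update_of_ne h1, Function.update_of_ne h2]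
          exact hχ v (Finset.mem_of_mem_insert_of_ne hv h1) w (Finset.mem_of_mem_insert_of_ne hw h2) hK
  obtain ⟨χ, hχ⟩ := main Finset.univ
  exact ⟨χ, fun v w h => hχ v (Finset.mem_univ _) w (Finset.mem_univ _) h⟩

/-- Distance two colouring. -/
theorem square_colouring {n : ℕ} (G : SimpleGraph (Fin n)) (Δ : ℕ)
    (hG : ∀ v, (G.neighborSet v).ncard ≤ Δ) :
    ∃ χ : Fin n → Fin (Δ * Δ + Δ + 1), (∀ v w, G.Adj v w → χ v ≠ χ w) ∧
      ∀ u v w, G.Adj u v → G.Adj u w → χ v = χ w → v = w := by
  classical
  let K : Fin n → Fin n → Prop := fun v w => v ≠ w ∧ (G.Adj v w ∨ ∃ u, G.Adj v u ∧ G.Adj u w)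
  obtain ⟨χ, hχ⟩ := greedy_colouring K (by
    rintro v w ⟨h1, h2⟩
    refine ⟨h1.symm, ?_⟩
    rcases h2 with h2 | ⟨u, h2, h3⟩
    · exact Or.inl h2.symm
    · exact Or.inr ⟨u, h3.symm, h2.symm⟩) (fun v h => h.1 rfl) (Δ * Δ + Δ) (by
    intro v
    have hsub : {w | K v w} ⊆ (⋃ u ∈ G.neighborSet v, G.neighborSet u) ∪ G.neighborSet v := by
      rintro w ⟨h1, h2⟩
      rcases h2 with h2 | ⟨u, h2, h3⟩
      · exact Or.inr h2
      · left
        rw [Set.mem_iUnion₂]
        exact ⟨u, h2, h3⟩
    refine (Set.ncard_le_ncard hsub (Set.toFinite _)).trans ?_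
    refine (Set.ncard_union_le _ _).trans ?_
    refine Nat.add_le_add ?_ (hG v)
    have h1 : (⋃ u ∈ G.neighborSet v, G.neighborSet u) =
        (((G.neighborSet v).toFinset.biUnion (fun u => (G.neighborSet u).toFinset) : Finset (Fin n)) : Set (Fin n)) := by
      ext w; simp
    rw [h1, Set.ncard_coe_finset]
    refine Finset.card_biUnion_le.trans ?_
    have h2 : ∀ u, ((G.neighborSet u).toFinset).card ≤ Δ := by
      intro u
      have := hG u
      rw [Set.ncard_eq_toFinset_card'] at this
      exact this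
    calc ∑ u ∈ (G.neighborSet v).toFinset, ((G.neighborSet u).toFinset).card
        ≤ ∑ u ∈ (G.neighborSet v).toFinset, Δ := Finset.sum_le_sum (fun u _ => h2 u)
      _ = ((G.neighborSet v).toFinset).card * Δ := by rw [Finset.sum_const, smul_eq_mul]
      _ ≤ Δ * Δ := Nat.mul_le_mul_right _ (h2 v))
  refine ⟨χ, ?_, ?_⟩
  · intro v w h
    exact hχ v w ⟨h.ne, Or.inl h⟩
  · intro u v w h1 h2 h3
    by_contra hne
    exact hχ v w ⟨hne, Or.inr ⟨u, h1.symm, h2⟩⟩ h3

variable {V : Type} [Fintype V] [DecidableEq V]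

open Classical in
/-- The vertices with few out-neighbours in `C`. -/
noncomputable def bad (r : V → V → Prop) (b : ℕ) (C : Finset V) : Finset V :=
  Finset.univ.filter (fun x => (C.filter (fun y => r x y)).card * (2 * b) < C.card)

theorem bad_card_lt {r : V → V → Prop} {Δ L b : ℕ} (hr : PR r Δ L) (hΔ : 1 ≤ Δ) (hb : 0 < b)
    (C : Finset V) (hC : 2 * (L * Fintype.card V) ≤ b * C.card) :
    (bad r b C).card < b := by
  classical
  by_contra hcon
  rw [not_lt] at hcon
  obtain ⟨B, hB, hBc⟩ := Finset.exists_subset_card_eq hcon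
  let Y := C.filter (fun y => ∀ x ∈ B, ¬ r x y)
  have hcov : C ⊆ Y ∪ B.biUnion (fun x => C.filter (fun y => r x y)) := by
    intro y hy
    by_cases h : ∀ x ∈ B, ¬ r x y
    · exact Finset.mem_union_left _ (Finset.mem_filter.2 ⟨hy, h⟩)
    · push Not at h
      obtain ⟨x, hx, hxy⟩ := h
      exact Finset.mem_union_right _ (Finset.mem_biUnion.2 ⟨x, hx, Finset.mem_filter.2 ⟨hy, hxy⟩⟩)
  have h1 : C.card ≤ Y.card + ∑ x ∈ B, (C.filter (fun y => r x y)).card :=
    (Finset.card_le_card hcov).trans ((Finset.card_union_le _ _).trans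
      (Nat.add_le_add_left Finset.card_biUnion_le _))
  have h2 : (∑ x ∈ B, (C.filter (fun y => r x y)).card) * (2 * b) ≤ b * C.card := by
    rw [Finset.sum_mul]
    calc ∑ x ∈ B, (C.filter (fun y => r x y)).card * (2 * b) ≤ ∑ x ∈ B, C.card := by
          apply Finset.sum_le_sum
          intro x hx
          have := hB hx
          rw [bad, Finset.mem_filter] at this
          exact this.2.le
      _ = b * C.card := by rw [Finset.sum_const, hBc, smul_eq_mul]
  have h3 : (∑ x ∈ B, (C.filter (fun y => r x y)).card) * 2 ≤ C.card := by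
    have : b * ((∑ x ∈ B, (C.filter (fun y => r x y)).card) * 2) ≤ b * C.card := by
      calc b * ((∑ x ∈ B, (C.filter (fun y => r x y)).card) * 2)
          = (∑ x ∈ B, (C.filter (fun y => r x y)).card) * (2 * b) := by ring
        _ ≤ _ := h2
    exact Nat.le_of_mul_le_mul_left this hb
  have h4 : C.card ≤ 2 * Y.card := by omega
  have h5 : L * Fintype.card V ≤ B.card * Y.card := by
    rw [hBc]
    have : b * C.card ≤ b * (2 * Y.card) := Nat.mul_le_mul_left _ h4
    have e : b * (2 * Y.card) = 2 * (b * Y.card) := by ring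
    omega
  obtain ⟨i, hi, y, hy, hri⟩ := hr (fun s => some s) B Y (by
    intro i _
    have : (Finset.univ.filter (fun s : V => (some s : Option V) = some i)) = {i} := by
      ext s; simp
    rw [this, Finset.card_singleton]; exact hΔ) h5
  exact (Finset.mem_filter.1 hy).2 i hi (hri i rfl)

/-- The matching step: a class of mutually independent vertices can be placed simultaneously. -/
theorem match_step {r : V → V → Prop} {Δ L : ℕ} (hr : PR r Δ L)
    {W : Type} [Fintype W] [DecidableEq W] (lab : W → V) (hlab : Function.Injective lab)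
    (n s e : ℕ) (hW : Fintype.card W ≤ n) (X : Finset V) (S Ex : W → Finset V)
    (hSd : ∀ w w', w ≠ w' → Disjoint (S w) (S w')) (hSc : ∀ w, (S w).card ≤ Δ)
    (hEx : ∀ w, (Ex w).card ≤ e)
    (A : W → Finset V) (hA : ∀ w y, y ∈ X → (∀ x ∈ S w, r x y) → y ∉ Ex w → y ∈ A w)
    (hsmall : ∀ w, s ≤ (A w).card)
    (hbig : L * Fintype.card V ≤ s * (X.card - n - s * e)) :
    ∃ ψ : W → V, Function.Injective ψ ∧ ∀ w, ψ w ∈ A w := by
  classical
  rw [← Finset.all_card_le_biUnion_card_iff_exists_injective]
  intro 𝒮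
  by_contra hcon
  rw [not_le] at hcon
  -- the family is large
  have hs : s ≤ 𝒮.card := by
    rcases 𝒮.eq_empty_or_nonempty with h | ⟨w, hw⟩
    · subst h; simp at hcon
    · have h1 : A w ⊆ 𝒮.biUnion A := Finset.subset_biUnion_of_mem A hw
      have h2 := Finset.card_le_card h1
      have h3 := hsmall w
      omega
  obtain ⟨𝒯, h𝒯, h𝒯c⟩ := Finset.exists_subset_card_eq hs
  let Y := (X \ 𝒮.biUnion A) \ 𝒯.biUnion Ex
  have hY : X.card - n - s * e ≤ Y.card := by
    have h1 : (X \ 𝒮.biUnion A).card ≥ X.card - (𝒮.biUnion A).card := Finset.le_card_sdiff _ _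
    have h2 : Y.card ≥ (X \ 𝒮.biUnion A).card - (𝒯.biUnion Ex).card := Finset.le_card_sdiff _ _
    have h3 : (𝒯.biUnion Ex).card ≤ s * e := by
      refine Finset.card_biUnion_le.trans ?_
      calc ∑ w ∈ 𝒯, (Ex w).card ≤ ∑ w ∈ 𝒯, e := Finset.sum_le_sum (fun w _ => hEx w)
        _ = s * e := by rw [Finset.sum_const, h𝒯c, smul_eq_mul]
    have h4 : 𝒮.card ≤ Fintype.card W := Finset.card_le_univ _
    omega
  let h : V → Option V := fun x => if hx : ∃ w ∈ 𝒯, x ∈ S w then some (lab hx.choose) else none
  have hh : ∀ w ∈ 𝒯, ∀ x, h x = some (lab w) ↔ x ∈ S w := by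
    intro w hw x
    constructor
    · intro hx
      simp only [h] at hx
      split_ifs at hx with h1
      have h2 := hlab (Option.some.inj hx)
      rw [← h2]
      exact h1.choose_spec.2
    · intro hx
      have h1 : ∃ w ∈ 𝒯, x ∈ S w := ⟨w, hw, hx⟩
      simp only [h, h1, dif_pos]
      congr 2
      by_contra hne
      exact Finset.disjoint_left.1 (hSd _ _ hne) h1.choose_spec.2 hx
  obtain ⟨i, hi, y, hy, hri⟩ := hr h (𝒯.image lab) Y (by
    intro i hi
    obtain ⟨w, hw, rfl⟩ := Finset.mem_image.1 hi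
    have : (Finset.univ.filter (fun x => h x = some (lab w))) = S w := by
      ext x
      simp only [Finset.mem_filter, Finset.mem_univ, true_and]
      exact hh w hw x
    rw [this]; exact hSc w) (by
    rw [Finset.card_image_of_injective _ hlab, h𝒯c]
    exact hbig.trans (Nat.mul_le_mul_left _ hY))
  obtain ⟨w, hw, rfl⟩ := Finset.mem_image.1 hi
  have hy1 : y ∈ X := (Finset.mem_sdiff.1 (Finset.mem_sdiff.1 hy).1).1
  have hy2 : y ∉ 𝒮.biUnion A := (Finset.mem_sdiff.1 (Finset.mem_sdiff.1 hy).1).2
  have hy3 : y ∉ 𝒯.biUnion Ex := (Finset.mem_sdiff.1 hy).2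
  apply hy2
  rw [Finset.mem_biUnion]
  refine ⟨w, h𝒯 hw, hA w y hy1 (fun x hx => hri x ((hh w hw x).2 hx)) ?_⟩
  intro hyE
  exact hy3 (Finset.mem_biUnion.2 ⟨w, hw, hyE⟩)

end Run7.h683.SR
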