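import Pool.Agent.Run7.h683.SR2

/-! # Embedding bounded degree graphs class by class -/

set_option autoImplicit false

namespace Run7.h683.SR

open Finset

variable {V : Type} [Fintype V] [DecidableEq V] {n : ℕ}

open Classical in
/-- Candidates for `z` after the classes below `j` have been placed by `φ`. -/
noncomputable def cand (G : SimpleGraph (Fin n)) (χ : Fin n → ℕ) (X : ℕ → Finset V)
    (r : V → V → Prop) (j : ℕ) (φ : Fin n → V) (z : Fin n) : Finset V :=
  (X (χ z)).filter (fun y => ∀ v, G.Adj z v → χ v < j → r (φ v) y)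

/-- The state of the embedding after the classes below `j` have been placed. -/
structure Inv (G : SimpleGraph (Fin n)) (χ : Fin n → ℕ) (X : ℕ → Finset V)
    (r : V → V → Prop) (R j : ℕ) (φ : Fin n → V) : Prop where
  mem : ∀ v, χ v < j → φ v ∈ X (χ v)
  inj : ∀ v w, χ v < j → χ w < j → φ v = φ w → v = w
  adj : ∀ v w, G.Adj v w → χ v < χ w → χ w < j → r (φ v) (φ w)
  big : ∀ z, j ≤ χ z → Fintype.card V ≤ (cand G χ X r j φ z).card * R

theorem stage_step {r : V → V → Prop} {Δ L : ℕ} (hr : PR r Δ L) (hΔ : 1 ≤ Δ) (hL : 1 ≤ L)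
    (G : SimpleGraph (Fin n)) (hG : ∀ v, (G.neighborSet v).ncard ≤ Δ)
    (χ : Fin n → ℕ)
    (hχ2 : ∀ u v w, G.Adj u v → G.Adj u w → χ v = χ w → v = w)
    (X : ℕ → Finset V) (hXd : ∀ i j, i ≠ j → Disjoint (X i) (X j))
    (hn : n ≤ Fintype.card V)
    (j R s : ℕ) (hR : 1 ≤ R) (φ : Fin n → V) (hI : Inv G χ X r R j φ)
    (hsmall : R * (s + Δ * (2 * L * R)) ≤ Fintype.card V)
    (hbig : L * Fintype.card V ≤ s * ((X j).card - n - s * (Δ * (2 * L * R)))) :
    ∃ φ' : Fin n → V, Inv G χ X r (4 * L * R ^ 2) (j + 1) φ' := by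
  classical
  set b := 2 * L * R with hb
  have hb0 : 0 < b := by positivity
  obtain ⟨lab⟩ : Nonempty (Fin n ↪ V) := by
    apply Function.Embedding.nonempty_of_card_le
    simpa using hn
  let W := {w : Fin n // χ w = j}
  let S : W → Finset V := fun w => (Finset.univ.filter (fun v => G.Adj w.1 v ∧ χ v < j)).image φ
  let Ex : W → Finset V := fun w =>
    (Finset.univ.filter (fun z => G.Adj w.1 z ∧ j < χ z)).biUnion (fun z => bad r b (cand G χ X r j φ z))
  let A : W → Finset V := fun w => (cand G χ X r j φ w.1) \ Ex w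
  have hdeg : ∀ w : Fin n, (Finset.univ.filter (fun v => G.Adj w v)).card ≤ Δ := by
    intro w
    have := hG w
    have h2 : G.neighborSet w = ((Finset.univ.filter (fun v => G.Adj w v) : Finset (Fin n)) : Set (Fin n)) := by
      ext v; simp
    rw [h2, Set.ncard_coe_finset] at this
    exact this
  have hExc : ∀ w, (Ex w).card ≤ Δ * b := by
    intro w
    refine Finset.card_biUnion_le.trans ?_
    calc ∑ z ∈ Finset.univ.filter (fun z => G.Adj w.1 z ∧ j < χ z), (bad r b (cand G χ X r j φ z)).card
        ≤ ∑ z ∈ Finset.univ.filter (fun z => G.Adj w.1 z ∧ j < χ z), b := by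
          apply Finset.sum_le_sum
          intro z hz
          have hz2 := (Finset.mem_filter.1 hz).2.2
          have hbig := hI.big z hz2.le
          apply le_of_lt
          apply bad_card_lt hr hΔ hb0
          calc 2 * (L * Fintype.card V) ≤ 2 * (L * ((cand G χ X r j φ z).card * R)) := by gcongr
            _ = b * (cand G χ X r j φ z).card := by rw [hb]; ring
      _ = (Finset.univ.filter (fun z => G.Adj w.1 z ∧ j < χ z)).card * b := by
          rw [Finset.sum_const, smul_eq_mul]
      _ ≤ Δ * b := by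
          apply Nat.mul_le_mul_right
          refine le_trans (Finset.card_le_card ?_) (hdeg w.1)
          intro z hz
          simp only [Finset.mem_filter, Finset.mem_univ, true_and] at hz ⊢
          exact hz.1
  have hAs : ∀ w, s ≤ (A w).card := by
    intro w
    have hbig := hI.big w.1 (le_of_eq w.2.symm)
    have h1 : R * (s + Δ * b) ≤ R * (cand G χ X r j φ w.1).card := by
      calc R * (s + Δ * b) ≤ Fintype.card V := hsmall
        _ ≤ _ := hbig
        _ = _ := by ring
    have h2 := Nat.le_of_mul_le_mul_left h1 hR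
    have h3 : (cand G χ X r j φ w.1).card - (Ex w).card ≤ (A w).card := Finset.le_card_sdiff _ _
    have h4 := hExc w
    omega
  obtain ⟨ψ, hψi, hψA⟩ := match_step hr (fun w : W => lab w.1)
    (fun w w' h => Subtype.ext (lab.injective h)) n s (Δ * b)
    (by
      have : Fintype.card W ≤ Fintype.card (Fin n) := Fintype.card_subtype_le _
      simpa using this) (X j) S Ex
    (by
      intro w w' hww
      rw [Finset.disjoint_left]
      intro x hx hx'
      obtain ⟨v, hv, rfl⟩ := Finset.mem_image.1 hx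
      obtain ⟨v', hv', hvv⟩ := Finset.mem_image.1 hx'
      simp only [Finset.mem_filter, Finset.mem_univ, true_and] at hv hv'
      have : v' = v := hI.inj _ _ hv'.2 hv.2 hvv
      subst this
      apply hww
      apply Subtype.ext
      exact hχ2 v' w.1 w'.1 hv.1.symm hv'.1.symm (w.2.trans w'.2.symm))
    (by
      intro w
      refine Finset.card_image_le.trans (le_trans (Finset.card_le_card ?_) (hdeg w.1))
      intro z hz
      simp only [Finset.mem_filter, Finset.mem_univ, true_and] at hz ⊢
      exact hz.1)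
    hExc A
    (by
      intro w y hy hS hE
      rw [Finset.mem_sdiff]
      refine ⟨?_, hE⟩
      rw [cand, Finset.mem_filter]
      refine ⟨by rw [w.2]; exact hy, ?_⟩
      intro v hv hvj
      apply hS
      exact Finset.mem_image_of_mem _ (by simp [hv, hvj]))
    hAs hbig
  have hψX : ∀ w : W, ψ w ∈ X j := by
    intro w
    have h1 := (Finset.mem_sdiff.1 (hψA w)).1
    rw [cand, Finset.mem_filter, w.2] at h1
    exact h1.1
  let φ' : Fin n → V := fun v => if h : χ v = j then ψ ⟨v, h⟩ else φ v
  have hφj : ∀ v (h : χ v = j), φ' v = ψ ⟨v, h⟩ := fun v h => by simp only [φ', h, dif_pos]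
  have hφn : ∀ v, χ v ≠ j → φ' v = φ v := fun v h => by simp only [φ', h, dif_neg, not_false_eq_true]
  have hmem : ∀ v, χ v < j + 1 → φ' v ∈ X (χ v) := by
    intro v hv
    by_cases h : χ v = j
    · rw [hφj v h, h]; exact hψX _
    · rw [hφn v h]; exact hI.mem v (by omega)
  refine ⟨φ', hmem, ?_, ?_, ?_⟩
  · intro v w hv hw hvw
    have hm1 := hmem v hv
    have hm2 := hmem w hw
    have hχvw : χ v = χ w := by
      by_contra hne
      rw [hvw] at hm1
      exact Finset.disjoint_left.1 (hXd _ _ hne) hm1 hm2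
    by_cases h : χ v = j
    · have h' : χ w = j := hχvw ▸ h
      rw [hφj v h, hφj w h'] at hvw
      have := hψi hvw
      exact congrArg Subtype.val this
    · have h' : χ w ≠ j := hχvw ▸ h
      rw [hφn v h, hφn w h'] at hvw
      exact hI.inj v w (by omega) (by omega) hvw
  · intro v w hvw hlt hw
    by_cases h : χ w = j
    · have h' : χ v ≠ j := by omega
      rw [hφj w h, hφn v h']
      have h1 := (Finset.mem_sdiff.1 (hψA ⟨w, h⟩)).1
      rw [cand, Finset.mem_filter] at h1
      exact h1.2 v hvw.symm (by omega)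
    · have h' : χ v ≠ j := by omega
      rw [hφn w h, hφn v h']
      exact hI.adj v w hvw hlt (by omega)
  · intro z hz
    have hold := hI.big z (by omega)
    by_cases hex : ∃ w0, G.Adj z w0 ∧ χ w0 = j
    · obtain ⟨w0, hw0, hw0j⟩ := hex
      set C := cand G χ X r j φ z with hC
      have hnb : ψ ⟨w0, hw0j⟩ ∉ bad r b C := by
        intro hbad
        have h1 := (Finset.mem_sdiff.1 (hψA ⟨w0, hw0j⟩)).2
        apply h1
        rw [Finset.mem_biUnion]
        exact ⟨z, by simp only [Finset.mem_filter, Finset.mem_univ, true_and]; exact ⟨hw0.symm, by omega⟩, hbad⟩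
      rw [bad, Finset.mem_filter] at hnb
      push Not at hnb
      have h2 := hnb (Finset.mem_univ _)
      have hsub : C.filter (fun y => r (ψ ⟨w0, hw0j⟩) y) ⊆ cand G χ X r (j + 1) φ' z := by
        intro y hy
        rw [Finset.mem_filter] at hy
        obtain ⟨hy1, hy2⟩ := hy
        rw [hC, cand, Finset.mem_filter] at hy1
        rw [cand, Finset.mem_filter]
        refine ⟨hy1.1, ?_⟩
        intro v hv hvj
        by_cases h : χ v = j
        · have : v = w0 := hχ2 z v w0 hv hw0 (h.trans hw0j.symm)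
          subst this
          rw [hφj v h]; exact hy2
        · rw [hφn v h]; exact hy1.2 v hv (by omega)
      have h3 := Finset.card_le_card hsub
      calc Fintype.card V ≤ C.card * R := hold
        _ ≤ ((C.filter (fun y => r (ψ ⟨w0, hw0j⟩) y)).card * (2 * b)) * R := Nat.mul_le_mul_right _ h2
        _ ≤ ((cand G χ X r (j + 1) φ' z).card * (2 * b)) * R := by gcongr
        _ = (cand G χ X r (j + 1) φ' z).card * (4 * L * R ^ 2) := by rw [hb]; ring
    · have hsub : cand G χ X r j φ z ⊆ cand G χ X r (j + 1) φ' z := by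
        intro y hy
        rw [cand, Finset.mem_filter] at hy ⊢
        refine ⟨hy.1, ?_⟩
        intro v hv hvj
        have h : χ v ≠ j := fun h => hex ⟨v, hv, h⟩
        rw [hφn v h]; exact hy.2 v hv (by omega)
      have h3 := Finset.card_le_card hsub
      have h4 : R ≤ 4 * L * R ^ 2 := by nlinarith
      calc Fintype.card V ≤ (cand G χ X r j φ z).card * R := hold
        _ ≤ (cand G χ X r (j + 1) φ' z).card * (4 * L * R ^ 2) := Nat.mul_le_mul h3 h4

/-- The loss factors. -/
def rho (T L : ℕ) : ℕ → ℕ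
  | 0 => 2 * T
  | j + 1 => 4 * L * rho T L j ^ 2

theorem rho_pos {T L : ℕ} (hT : 1 ≤ T) (hL : 1 ≤ L) (j : ℕ) : 1 ≤ rho T L j := by
  induction j with
  | zero => simp only [rho]; omega
  | succ j ih =>
    simp only [rho]
    have : 0 < rho T L j := ih
    have : 0 < 4 * L * rho T L j ^ 2 := by positivity
    exact this

theorem embed {r : V → V → Prop} {Δ L T : ℕ} (hr : PR r Δ L) (hΔ : 1 ≤ Δ) (hL : 1 ≤ L) (hT : 1 ≤ T)
    (G : SimpleGraph (Fin n)) (hG : ∀ v, (G.neighborSet v).ncard ≤ Δ)
    (χ : Fin n → ℕ) (hχT : ∀ v, χ v < T) (hχ1 : ∀ v w, G.Adj v w → χ v ≠ χ w)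
    (hχ2 : ∀ u v w, G.Adj u v → G.Adj u w → χ v = χ w → v = w)
    (X : ℕ → Finset V) (hXd : ∀ i j, i ≠ j → Disjoint (X i) (X j))
    (hXc : ∀ j, j < T → (X j).card = 2 * n)
    (hV : Fintype.card V = 4 * T * n)
    (hn : ∀ j, j < T → 32 * T * Δ * L ^ 2 * rho T L j ^ 2 ≤ n) :
    ∃ φ : Fin n → V, Function.Injective φ ∧ (∀ v, φ v ∈ X (χ v)) ∧
      ∀ v w, G.Adj v w → r (φ v) (φ w) ∨ r (φ w) (φ v) := by
  classical
  have hnV : n ≤ Fintype.card V := by rw [hV]; nlinarith
  obtain ⟨lab⟩ : Nonempty (Fin n ↪ V) := by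
    apply Function.Embedding.nonempty_of_card_le
    simpa using hnV
  have key : ∀ j, j ≤ T → ∃ φ : Fin n → V, Inv G χ X r (rho T L j) j φ := by
    intro j
    induction j with
    | zero =>
      intro _
      refine ⟨lab, ?_, ?_, ?_, ?_⟩
      · intro v hv; omega
      · intro v w hv; omega
      · intro v w _ _ hw; omega
      · intro z _
        have : cand G χ X r 0 lab z = X (χ z) := by
          rw [cand, Finset.filter_true_of_mem]
          intro y _ v _ hv; omega
        rw [this, hXc _ (hχT z), hV]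
        simp only [rho]
        apply le_of_eq; ring
    | succ j ih =>
      intro hj
      obtain ⟨φ, hφ⟩ := ih (by omega)
      have hR := rho_pos hT hL j
      have hnj := hn j (by omega)
      set R := rho T L j with hRdef
      have hstep := stage_step hr hΔ hL G hG χ hχ2 X hXd hnV j R (8 * T * L) hR φ hφ (by
          rw [hV]
          have e1 : R * (8 * T * L + Δ * (2 * L * R)) = 8 * T * L * R + 2 * Δ * L * R ^ 2 := by ring
          have e2 : 8 * T * L * R ≤ 8 * T * Δ * L ^ 2 * R ^ 2 := by
            have h1 : L ≤ L ^ 2 := by nlinarith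
            have h2 : R ≤ R ^ 2 := by nlinarith
            have h3 : 8 * T ≤ 8 * T * Δ := by nlinarith
            calc 8 * T * L * R ≤ (8 * T * Δ) * L ^ 2 * R ^ 2 := by gcongr
              _ = _ := by ring
          have e3 : 2 * Δ * L * R ^ 2 ≤ 2 * T * Δ * L ^ 2 * R ^ 2 := by
            have h1 : L ≤ L ^ 2 := by nlinarith
            have h3 : 2 * Δ ≤ 2 * T * Δ := by nlinarith
            calc 2 * Δ * L * R ^ 2 ≤ (2 * T * Δ) * L ^ 2 * R ^ 2 := by gcongr
              _ = _ := by ring
          have e4 : 32 * T * Δ * L ^ 2 * R ^ 2 ≤ 4 * T * n := by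
            calc _ ≤ n := hnj
              _ ≤ 4 * T * n := by nlinarith
          rw [e1]
          nlinarith [e2, e3, e4]) (by
          rw [hV, hXc j (by omega)]
          have e1 : 8 * T * L * (Δ * (2 * L * R)) * 2 ≤ n := by
            have h2 : R ≤ R ^ 2 := by nlinarith
            calc 8 * T * L * (Δ * (2 * L * R)) * 2 = 32 * T * Δ * L ^ 2 * R := by ring
              _ ≤ 32 * T * Δ * L ^ 2 * R ^ 2 := by gcongr
              _ ≤ n := hnj
          have e2 : n ≤ 2 * (2 * n - n - 8 * T * L * (Δ * (2 * L * R))) := by omega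
          calc L * (4 * T * n) = (4 * T * L) * n := by ring
            _ ≤ (4 * T * L) * (2 * (2 * n - n - 8 * T * L * (Δ * (2 * L * R)))) := by gcongr
            _ = _ := by ring)
      simpa only [rho] using hstep
  obtain ⟨φ, hφ⟩ := key T le_rfl
  refine ⟨φ, ?_, ?_, ?_⟩
  · intro v w h
    exact hφ.inj v w (hχT v) (hχT w) h
  · intro v; exact hφ.mem v (hχT v)
  · intro v w h
    rcases lt_or_gt_of_ne (hχ1 v w h) with h1 | h1
    · exact Or.inl (hφ.adj v w h h1 (hχT w))
    · exact Or.inr (hφ.adj w v h.symm h1 (hχT v))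

end Run7.h683.SR
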