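import Pool.Agent.Run7.h683.SR3

/-! # The host graph for one block -/

set_option autoImplicit false

namespace Run7.h683.SR

open Finset

theorem poly_le_exp (c A : ℕ) : ∃ m0 : ℕ, ∀ m ≥ m0, (c * m) ^ A * 2 ≤ 2 ^ m := by
  have h := tendsto_pow_const_mul_const_pow_of_abs_lt_one A (r := (1 / 2 : ℝ)) (by
    rw [abs_of_pos (by norm_num)]; norm_num)
  have hpos : (0 : ℝ) < 1 / (2 * (c : ℝ) ^ A + 1) := by positivity
  have h2 := h.eventually (gt_mem_nhds hpos)
  obtain ⟨m0, hm0⟩ := Filter.eventually_atTop.1 h2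
  refine ⟨m0, fun m hm => ?_⟩
  have h3 := hm0 m hm
  have h4 : (m : ℝ) ^ A * (1 / 2) ^ m * (2 * (c : ℝ) ^ A + 1) < 1 := by
    rwa [lt_div_iff₀ (by positivity)] at h3
  have h5 : ((c * m : ℝ)) ^ A * 2 ≤ 2 ^ m := by
    have h6 : (m : ℝ) ^ A * (1 / 2) ^ m * (2 * (c : ℝ) ^ A) ≤ 1 := by
      have : (m : ℝ) ^ A * (1 / 2) ^ m * (2 * (c : ℝ) ^ A) ≤ (m : ℝ) ^ A * (1 / 2) ^ m * (2 * (c : ℝ) ^ A + 1) := by
        apply mul_le_mul_of_nonneg_left (by linarith) (by positivity)
      linarith
    have h7 : (1 / 2 : ℝ) ^ m = 1 / 2 ^ m := by rw [one_div, one_div, inv_pow]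
    rw [h7] at h6
    have h8 : (0 : ℝ) < 2 ^ m := by positivity
    calc ((c * m : ℝ)) ^ A * 2 = (m : ℝ) ^ A * (1 / 2 ^ m) * (2 * (c : ℝ) ^ A) * 2 ^ m := by
          rw [mul_pow]; field_simp
      _ ≤ 1 * 2 ^ m := by gcongr
      _ = 2 ^ m := one_mul _
  exact_mod_cast h5

theorem rho_le {T L : ℕ} (hT : 1 ≤ T) (hL : 1 ≤ L) (j : ℕ) : rho T L j ≤ (8 * T * L) ^ (3 ^ j) := by
  induction j with
  | zero =>
    simp only [rho, pow_zero, pow_one]
    nlinarith
  | succ j ih =>
    simp only [rho]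
    have h1 : 1 ≤ 8 * T * L := by
      have : 0 < 8 * T * L := by positivity
      exact this
    calc 4 * L * rho T L j ^ 2 ≤ (8 * T * L) * ((8 * T * L) ^ (3 ^ j)) ^ 2 := by
          apply Nat.mul_le_mul
          · nlinarith
          · exact Nat.pow_le_pow_left ih 2
      _ = (8 * T * L) ^ (1 + 3 ^ j * 2) := by rw [pow_add, pow_one, pow_mul]
      _ ≤ (8 * T * L) ^ (3 ^ (j + 1)) := by
          apply Nat.pow_le_pow_right h1
          have : 1 ≤ 3 ^ j := Nat.one_le_pow _ _ (by norm_num)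
          rw [pow_succ]; omega

theorem choose_L (Δ T q : ℕ) (hT : 1 ≤ T) (hΔ : 1 ≤ Δ) (hq : 0 < q) :
    ∃ n0 : ℕ, ∀ n ≥ n0, ∃ L : ℕ, 1 ≤ L ∧
      4 * (((4 * T * n : ℕ) : ℝ) + 1) * q * (1 - 1 / (q : ℝ) ^ Δ) ^ L < 1 ∧
      ∀ j, j < T → 32 * T * Δ * L ^ 2 * rho T L j ^ 2 ≤ n := by
  have hq1 : (1 : ℝ) ≤ q := by exact_mod_cast hq
  have hqΔ : (1 : ℝ) ≤ (q : ℝ) ^ Δ := one_le_pow₀ hq1
  have hqΔ0 : (0 : ℝ) < (q : ℝ) ^ Δ := by positivity
  set θ := 1 - 1 / (q : ℝ) ^ Δ with hθdef
  have hθ : 0 ≤ θ := by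
    have : 1 / (q : ℝ) ^ Δ ≤ 1 := by
      rw [div_le_one hqΔ0]; exact hqΔ
    linarith
  have hθ1 : θ < 1 := by
    have : 0 < 1 / (q : ℝ) ^ Δ := by positivity
    linarith
  obtain ⟨K0, hK0⟩ := exists_pow_lt_of_lt_one (show (0 : ℝ) < 1 / 4 by norm_num) hθ1
  set K := K0 + 1 with hK
  have hK1 : θ ^ K ≤ 1 / 4 := by
    rw [hK, pow_succ]
    have : θ ^ K0 * θ ≤ θ ^ K0 * 1 := by
      apply mul_le_mul_of_nonneg_left hθ1.le (by positivity)
    linarith
  obtain ⟨m0, hm0⟩ := poly_le_exp (32 * T * Δ * K) (2 + 3 ^ T * 2)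
  refine ⟨max (2 ^ m0) (20 * T * q + 1), fun n hn => ?_⟩
  have hn1 : 2 ^ m0 ≤ n := (le_max_left _ _).trans hn
  have hn2 : 20 * T * q + 1 ≤ n := (le_max_right _ _).trans hn
  have hn0 : n ≠ 0 := by omega
  set m := Nat.log 2 n + 1 with hm
  have hmm0 : m0 ≤ m := by
    have := Nat.le_log_of_pow_le (by norm_num : 1 < 2) hn1
    omega
  have hnm : n < 2 ^ m := Nat.lt_pow_succ_log_self (by norm_num) n
  have hmn : 2 ^ m ≤ 2 * n := by
    rw [hm, pow_succ]
    have := Nat.pow_log_le_self 2 hn0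
    omega
  refine ⟨K * m, ?_, ?_, ?_⟩
  · have : 0 < K * m := by positivity
    exact this
  · have h1 : θ ^ (K * m) ≤ (1 / 4) ^ m := by
      rw [pow_mul]; gcongr
    have hnR : (0 : ℝ) < n := by exact_mod_cast Nat.pos_of_ne_zero hn0
    have hn1R : (1 : ℝ) ≤ n := by exact_mod_cast Nat.one_le_iff_ne_zero.2 hn0
    have hTR : (1 : ℝ) ≤ T := by exact_mod_cast hT
    have h2 : (1 / 4 : ℝ) ^ m ≤ 1 / ((n : ℝ) * n) := by
      have h3 : (n : ℝ) ≤ 2 ^ m := by exact_mod_cast hnm.le
      have h4 : (1 / 4 : ℝ) ^ m = 1 / (2 ^ m * 2 ^ m) := by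
        rw [← mul_pow, one_div, one_div, inv_pow]; norm_num
      rw [h4]
      apply one_div_le_one_div_of_le (by positivity)
      exact mul_le_mul h3 h3 hnR.le (by positivity)
    have h3 : 4 * (((4 * T * n : ℕ) : ℝ) + 1) * q ≤ 20 * T * q * n := by
      push_cast
      have : (1 : ℝ) ≤ T * n := by nlinarith
      have h4 : (4 * (T : ℝ) * n + 1) ≤ 5 * (T * n) := by linarith
      calc 4 * (4 * (T : ℝ) * n + 1) * q ≤ 4 * (5 * (T * n)) * q := by gcongr
        _ = 20 * T * q * n := by ring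
    have h5 : (20 * T * q : ℝ) < n := by
      have : (20 * T * q : ℕ) < n := by omega
      exact_mod_cast this
    calc 4 * (((4 * T * n : ℕ) : ℝ) + 1) * q * θ ^ (K * m)
        ≤ (20 * T * q * n) * (1 / ((n : ℝ) * n)) := by
          apply mul_le_mul h3 (h1.trans h2) (by positivity) (by positivity)
      _ = (20 * T * q) / n := by field_simp
      _ < 1 := by rw [div_lt_one hnR]; exact h5
  · intro j hj
    set L := K * m with hL
    have hL1 : 1 ≤ L := by
      have : 0 < K * m := by positivity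
      exact this
    have h1 := rho_le (T := T) (L := L) hT hL1 j
    have h2 : 1 ≤ 8 * T * L := by
      have : 0 < 8 * T * L := by positivity
      exact this
    have h3 : rho T L j ≤ (8 * T * L) ^ (3 ^ T) :=
      h1.trans (Nat.pow_le_pow_right h2 (Nat.pow_le_pow_right (by norm_num) hj.le))
    have h4 : 8 * T * L ≤ 32 * T * Δ * L := by nlinarith
    have h5 : 32 * T * Δ * L ^ 2 ≤ (32 * T * Δ * L) ^ 2 := by
      have : 1 ≤ 32 * T * Δ := by
        have : 0 < 32 * T * Δ := by positivity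
        exact this
      calc 32 * T * Δ * L ^ 2 ≤ (32 * T * Δ) ^ 2 * L ^ 2 := by
            apply Nat.mul_le_mul_right
            nlinarith
        _ = _ := by ring
    have h6 : 32 * T * Δ * L ^ 2 * rho T L j ^ 2 ≤ (32 * T * Δ * L) ^ (2 + 3 ^ T * 2) := by
      calc 32 * T * Δ * L ^ 2 * rho T L j ^ 2 ≤ (32 * T * Δ * L) ^ 2 * ((8 * T * L) ^ (3 ^ T)) ^ 2 := by
            gcongr
        _ ≤ (32 * T * Δ * L) ^ 2 * ((32 * T * Δ * L) ^ (3 ^ T)) ^ 2 := by gcongr
        _ = _ := by rw [pow_add, pow_mul]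
    have h7 := hm0 m hmm0
    have h8 : 32 * T * Δ * K * m = 32 * T * Δ * L := by rw [hL]; ring
    rw [h8] at h7
    omega

/-- Either a blue matching of size `s`, or a large set without blue edges. -/
theorem matching_or_set {N : ℕ} (F R : SimpleGraph (Fin N)) (s : ℕ) :
    (∃ g : Fin s ⊕ Fin s → Fin N, Function.Injective g ∧
      ∀ i, F.Adj (g (Sum.inl i)) (g (Sum.inr i)) ∧ ¬ R.Adj (g (Sum.inl i)) (g (Sum.inr i))) ∨
    ∃ U : Finset (Fin N), N ≤ U.card + 2 * s ∧ ∀ u ∈ U, ∀ v ∈ U, F.Adj u v → R.Adj u v := by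
  classical
  induction s with
  | zero =>
    left
    refine ⟨fun x => x.elim (fun i => i.elim0) (fun i => i.elim0), ?_, fun i => i.elim0⟩
    intro x
    rcases x with x | x <;> exact x.elim0
  | succ s ih =>
    rcases ih with ⟨g, hg, hg'⟩ | ⟨U, hU, hU'⟩
    · let U : Finset (Fin N) := Finset.univ \ (Finset.univ.image g)
      have hUc : N ≤ U.card + 2 * s := by
        have h1 : (Finset.univ : Finset (Fin N)).card - ((Finset.univ : Finset (Fin s ⊕ Fin s)).image g).card ≤ U.card :=
          Finset.le_card_sdiff _ _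
        rw [Finset.card_image_of_injective _ hg, Finset.card_univ, Finset.card_univ, Fintype.card_sum,
          Fintype.card_fin, Fintype.card_fin] at h1
        omega
      by_cases h : ∀ u ∈ U, ∀ v ∈ U, F.Adj u v → R.Adj u v
      · right; exact ⟨U, by omega, h⟩
      · left
        push Not at h
        obtain ⟨u, hu, v, hv, huv, huv'⟩ := h
        have hu' : ∀ x, g x ≠ u := by
          intro x hx
          rw [← hx] at hu
          exact (Finset.mem_sdiff.1 hu).2 (Finset.mem_image_of_mem _ (Finset.mem_univ _))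
        have hv' : ∀ x, g x ≠ v := by
          intro x hx
          rw [← hx] at hv
          exact (Finset.mem_sdiff.1 hv).2 (Finset.mem_image_of_mem _ (Finset.mem_univ _))
        have hne : u ≠ v := huv.ne
        refine ⟨Sum.elim (Fin.cons u (fun i => g (Sum.inl i))) (Fin.cons v (fun i => g (Sum.inr i))), ?_, ?_⟩
        · apply Function.Injective.sumElim
          · rw [Fin.cons_injective_iff]
            refine ⟨?_, fun a b hab => Sum.inl_injective (hg hab)⟩
            rintro ⟨x, hx⟩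
            exact hu' _ hx
          · rw [Fin.cons_injective_iff]
            refine ⟨?_, fun a b hab => Sum.inr_injective (hg hab)⟩
            rintro ⟨x, hx⟩
            exact hv' _ hx
          · intro a b
            refine Fin.cases ?_ (fun a => ?_) a
            · refine Fin.cases ?_ (fun b => ?_) b
              · simpa only [Fin.cons_zero] using hne
              · simp only [Fin.cons_zero, Fin.cons_succ]
                exact fun h => hu' _ h.symm
            · refine Fin.cases ?_ (fun b => ?_) b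
              · simp only [Fin.cons_zero, Fin.cons_succ]
                exact hv' _
              · simp only [Fin.cons_succ]
                intro hab
                exact absurd (hg hab) (by simp)
        · intro i
          refine Fin.cases ?_ (fun i => ?_) i
          · simp only [Sum.elim_inl, Sum.elim_inr, Fin.cons_zero]
            exact ⟨huv, huv'⟩
          · simp only [Sum.elim_inl, Sum.elim_inr, Fin.cons_succ]
            exact hg' i
    · right; exact ⟨U, by omega, hU'⟩

/-- The host graph of a relation. -/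
def host {V : Type} (r : V → V → Prop) : SimpleGraph V where
  Adj u v := u ≠ v ∧ (r u v ∨ r v u)
  symm := ⟨fun _ _ h => ⟨h.1.symm, h.2.symm⟩⟩
  loopless := ⟨fun _ h => h.1 rfl⟩

theorem host_edges {V : Type} [Fintype V] (r : V → V → Prop) :
    (host r).edgeSet.ncard ≤ {p : V × V | r p.1 p.2}.ncard := by
  classical
  have hsub : (host r).edgeSet ⊆ (fun p : V × V => s(p.1, p.2)) '' {p : V × V | r p.1 p.2} := by
    intro e he
    induction e using Sym2.ind with
    | _ u v =>
      rw [SimpleGraph.mem_edgeSet] at he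
      rcases he.2 with h | h
      · exact ⟨(u, v), h, rfl⟩
      · exact ⟨(v, u), h, Sym2.eq_swap⟩
  exact (Set.ncard_le_ncard hsub (Set.toFinite _)).trans (Set.ncard_image_le (Set.toFinite _))

theorem exists_block (Δ : ℕ) (hΔ : 1 ≤ Δ) (δ : ℝ) (hδ : 0 < δ) : ∃ n₀ : ℕ, ∀ n ≥ n₀,
    ∃ (N s : ℕ) (F : SimpleGraph (Fin N)), 1 ≤ s ∧ (F.edgeSet.ncard : ℝ) ≤ δ * s * n ∧
      ∀ G : SimpleGraph (Fin n), (∀ v, (G.neighborSet v).ncard ≤ Δ) → ∀ R : SimpleGraph (Fin N), R ≤ F →
        (∃ f : Fin n → Fin N, Function.Injective f ∧ ∀ a b, G.Adj a b → R.Adj (f a) (f b)) ∨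
        ∃ g : Fin s ⊕ Fin s → Fin N, Function.Injective g ∧
          ∀ i, F.Adj (g (Sum.inl i)) (g (Sum.inr i)) ∧ ¬ R.Adj (g (Sum.inl i)) (g (Sum.inr i)) := by
  classical
  set T := Δ * Δ + Δ + 1 with hT
  have hT1 : 1 ≤ T := by omega
  obtain ⟨q0, hq0⟩ := exists_nat_gt (16 * (T : ℝ) / δ)
  set q := q0 + 1 with hq
  have hqpos : 0 < q := by omega
  have hqR : (0 : ℝ) < q := by exact_mod_cast hqpos
  have hqδ : 16 * (T : ℝ) / q ≤ δ := by
    rw [div_le_iff₀ hqR]
    rw [div_lt_iff₀ hδ] at hq0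
    have : (q : ℝ) = q0 + 1 := by rw [hq]; push_cast; ring
    rw [this]; nlinarith
  obtain ⟨n0, hn0⟩ := choose_L Δ T q hT1 hΔ hqpos
  refine ⟨max n0 1, fun n hn => ?_⟩
  have hn1 : n0 ≤ n := (le_max_left _ _).trans hn
  have hn2 : 1 ≤ n := (le_max_right _ _).trans hn
  obtain ⟨L, hL1, hL2, hL3⟩ := hn0 n hn1
  set N := 4 * T * n with hN
  have hNpos : 0 < N := by positivity
  obtain ⟨c, hc⟩ := exists_colouring (V := Fin N) q Δ L hqpos (by simpa using hNpos) (by
    simpa only [Fintype.card_fin] using hL2)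
  -- the sparsest colour
  obtain ⟨a, -, ha⟩ := Finset.exists_card_fiber_le_of_card_le_nsmul (M := ℝ)
    (s := (Finset.univ : Finset (Fin N × Fin N))) (t := (Finset.univ : Finset (Fin q)))
    (f := fun p => c p.2 p.1) (b := (N : ℝ) * N / q)
    (by exact ⟨⟨0, hqpos⟩, Finset.mem_univ _⟩) (by
      rw [Finset.card_univ, Finset.card_univ, Fintype.card_prod, Fintype.card_fin, Fintype.card_fin,
        nsmul_eq_mul]
      push_cast
      apply le_of_eq
      field_simp)
  let r : Fin N → Fin N → Prop := fun s y => c y s = a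
  have hr : PR r Δ L := hc a
  refine ⟨N, T * n, host r, ?_, ?_, ?_⟩
  · have : 0 < T * n := by positivity
    exact this
  · have h1 := host_edges r
    have h2 : {p : Fin N × Fin N | r p.1 p.2}.ncard =
        (Finset.univ.filter (fun p : Fin N × Fin N => c p.2 p.1 = a)).card := by
      rw [← Set.ncard_coe_finset]
      congr 1
      ext p; simp [r]
    rw [h2] at h1
    have h3 : ((host r).edgeSet.ncard : ℝ) ≤ (N : ℝ) * N / q := by
      refine le_trans ?_ ha
      exact_mod_cast h1
    refine h3.trans ?_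
    have h4 : (N : ℝ) * N / q = (16 * (T : ℝ) / q) * (T * n) * n := by
      rw [hN]; push_cast; field_simp; ring
    rw [h4]
    push_cast
    gcongr
  · intro G hG R hR
    rcases matching_or_set (host r) R (T * n) with h | ⟨U, hU, hUR⟩
    · exact Or.inr h
    · left
      obtain ⟨χ, hχ1, hχ2⟩ := square_colouring G Δ hG
      have hUc : T * (2 * n) ≤ U.card := by
        have e1 : N = 4 * (T * n) := by rw [hN]; ring
        have e2 : T * (2 * n) = 2 * (T * n) := by ring
        omega
      obtain ⟨ι⟩ : Nonempty (Fin T × Fin (2 * n) ↪ U) := by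
        apply Function.Embedding.nonempty_of_card_le
        rw [Fintype.card_prod, Fintype.card_fin, Fintype.card_fin, Fintype.card_coe]
        exact hUc
      let X : ℕ → Finset (Fin N) := fun j =>
        if h : j < T then (Finset.univ : Finset (Fin (2 * n))).image (fun i => (ι (⟨j, h⟩, i) : Fin N)) else ∅
      have hXU : ∀ j, X j ⊆ U := by
        intro j x hx
        by_cases h : j < T
        · simp only [X, h, dif_pos, Finset.mem_image] at hx
          obtain ⟨i, -, rfl⟩ := hx
          exact (ι (⟨j, h⟩, i)).2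
        · simp [X, h] at hx
      have hXd : ∀ i j, i ≠ j → Disjoint (X i) (X j) := by
        intro i j hij
        rw [Finset.disjoint_left]
        intro x hx hx'
        by_cases h : i < T
        · by_cases h' : j < T
          · simp only [X, h, h', dif_pos, Finset.mem_image] at hx hx'
            obtain ⟨k, -, rfl⟩ := hx
            obtain ⟨k', -, hkk⟩ := hx'
            have := ι.injective (Subtype.ext hkk)
            simp only [Prod.mk.injEq, Fin.mk.injEq] at this
            exact hij this.1.symm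
          · simp [X, h'] at hx'
        · simp [X, h] at hx
      have hXc : ∀ j, j < T → (X j).card = 2 * n := by
        intro j hj
        simp only [X, hj, dif_pos]
        rw [Finset.card_image_of_injective, Finset.card_univ, Fintype.card_fin]
        intro i i' hii
        have := ι.injective (Subtype.ext hii)
        simpa using this
      obtain ⟨φ, hφi, hφX, hφr⟩ := embed hr hΔ hL1 hT1 G hG (fun v => (χ v : ℕ)) (fun v => (χ v).2)
        (fun v w h => by
          have := hχ1 v w h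
          intro hh; exact this (Fin.ext hh))
        (fun u v w h1 h2 h3 => hχ2 u v w h1 h2 (Fin.ext h3)) X hXd hXc
        (by rw [Fintype.card_fin]) hL3
      refine ⟨φ, hφi, ?_⟩
      intro v w hvw
      apply hUR _ (hXU _ (hφX v)) _ (hXU _ (hφX w))
      exact ⟨fun h => hvw.ne (hφi h), hφr v w hvw⟩

end Run7.h683.SR
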