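import Pool.Agent.Run7.h683.SR4

/-! # Disjoint copies and the limit -/

set_option autoImplicit false

namespace Run7.h683.SR

open Finset

/-- `k` disjoint copies of `F`. -/
def copies {N : ℕ} (F : SimpleGraph (Fin N)) (k : ℕ) : SimpleGraph (Fin (k * N)) where
  Adj x y := (finProdFinEquiv.symm x).1 = (finProdFinEquiv.symm y).1 ∧
    F.Adj (finProdFinEquiv.symm x).2 (finProdFinEquiv.symm y).2
  symm := ⟨fun _ _ h => ⟨h.1.symm, h.2.symm⟩⟩
  loopless := ⟨fun _ h => F.loopless.irrefl _ h.2⟩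

theorem copies_edges {N : ℕ} (F : SimpleGraph (Fin N)) (k : ℕ) :
    (copies F k).edgeSet.ncard ≤ k * F.edgeSet.ncard := by
  classical
  have hsub : (copies F k).edgeSet ⊆
      (fun p : Fin k × Sym2 (Fin N) => p.2.map (fun x => finProdFinEquiv (p.1, x))) ''
        ((Set.univ : Set (Fin k)) ×ˢ F.edgeSet) := by
    intro e he
    induction e using Sym2.ind with
    | _ u v =>
      rw [SimpleGraph.mem_edgeSet] at he
      obtain ⟨h1, h2⟩ := he
      refine ⟨((finProdFinEquiv.symm u).1, s((finProdFinEquiv.symm u).2, (finProdFinEquiv.symm v).2)), ?_, ?_⟩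
      · exact ⟨Set.mem_univ _, h2⟩
      · have e1 : finProdFinEquiv ((finProdFinEquiv.symm u).1, (finProdFinEquiv.symm u).2) = u := by
          rw [Prod.mk.eta, Equiv.apply_symm_apply]
        have e2 : finProdFinEquiv ((finProdFinEquiv.symm u).1, (finProdFinEquiv.symm v).2) = v := by
          rw [h1, Prod.mk.eta, Equiv.apply_symm_apply]
        change s(finProdFinEquiv ((finProdFinEquiv.symm u).1, (finProdFinEquiv.symm u).2),
          finProdFinEquiv ((finProdFinEquiv.symm u).1, (finProdFinEquiv.symm v).2)) = s(u, v)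
        rw [e1, e2]
  refine (Set.ncard_le_ncard hsub (Set.toFinite _)).trans ((Set.ncard_image_le (Set.toFinite _)).trans ?_)
  rw [Set.ncard_prod, Set.ncard_univ, Nat.card_eq_fintype_card, Fintype.card_fin]

theorem copies_ramsey {n N s : ℕ} (G : SimpleGraph (Fin n)) (F : SimpleGraph (Fin N))
    (hF : ∀ R : SimpleGraph (Fin N), R ≤ F →
        (∃ f : Fin n → Fin N, Function.Injective f ∧ ∀ a b, G.Adj a b → R.Adj (f a) (f b)) ∨
        ∃ g : Fin s ⊕ Fin s → Fin N, Function.Injective g ∧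
          ∀ i, F.Adj (g (Sum.inl i)) (g (Sum.inr i)) ∧ ¬ R.Adj (g (Sum.inl i)) (g (Sum.inr i)))
    (k t : ℕ) (ht : t ≤ k * s) (R : SimpleGraph (Fin (k * N))) (hR : R ≤ copies F k) :
    (∃ f : Fin n → Fin (k * N), Function.Injective f ∧ ∀ a b, G.Adj a b → R.Adj (f a) (f b)) ∨
    ∃ g : Fin t ⊕ Fin t → Fin (k * N), Function.Injective g ∧
      ∀ i, (copies F k).Adj (g (Sum.inl i)) (g (Sum.inr i)) ∧ ¬ R.Adj (g (Sum.inl i)) (g (Sum.inr i)) := by
  classical
  by_cases hex : ∃ i : Fin k, ∃ f : Fin n → Fin N, Function.Injective f ∧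
      ∀ a b, G.Adj a b → R.Adj (finProdFinEquiv (i, f a)) (finProdFinEquiv (i, f b))
  · left
    obtain ⟨i, f, hf, hf'⟩ := hex
    refine ⟨fun a => finProdFinEquiv (i, f a), ?_, hf'⟩
    intro a b hab
    have := finProdFinEquiv.injective hab
    simp only [Prod.mk.injEq, true_and] at this
    exact hf this
  · right
    have hall : ∀ i : Fin k, ∃ g : Fin s ⊕ Fin s → Fin N, Function.Injective g ∧
        ∀ x, F.Adj (g (Sum.inl x)) (g (Sum.inr x)) ∧
          ¬ R.Adj (finProdFinEquiv (i, g (Sum.inl x))) (finProdFinEquiv (i, g (Sum.inr x))) := by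
      intro i
      let Ri : SimpleGraph (Fin N) := R.comap (fun x => finProdFinEquiv (i, x))
      rcases hF Ri (by
        intro x y hxy
        have h1 := hR hxy
        have h2 := h1.2
        simpa using h2) with h | h
      · exfalso
        obtain ⟨f, hf, hf'⟩ := h
        exact hex ⟨i, f, hf, fun a b hab => hf' a b hab⟩
      · obtain ⟨g, hg, hg'⟩ := h
        exact ⟨g, hg, fun x => ⟨(hg' x).1, fun hh => (hg' x).2 hh⟩⟩
    choose g hg hg' using hall
    -- indices
    let idx : Fin t → Fin k × Fin s := fun i => finProdFinEquiv.symm (Fin.castLE ht i)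
    have hidx : Function.Injective idx := fun i j h =>
      Fin.castLE_injective ht (finProdFinEquiv.symm.injective h)
    let G' : Fin t ⊕ Fin t → Fin k × Fin N := fun x =>
      x.elim (fun i => ((idx i).1, g (idx i).1 (Sum.inl (idx i).2)))
        (fun i => ((idx i).1, g (idx i).1 (Sum.inr (idx i).2)))
    refine ⟨fun x => finProdFinEquiv (G' x), ?_, ?_⟩
    · have hG' : Function.Injective G' := by
        intro x y hxy
        rcases x with x | x <;> rcases y with y | y
        · simp only [G', Sum.elim_inl, Prod.mk.injEq] at hxy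
          have h2 := hxy.2
          rw [hxy.1] at h2
          have h3 := Sum.inl_injective (hg _ h2)
          rw [hidx (Prod.ext hxy.1 h3)]
        · simp only [G', Sum.elim_inl, Sum.elim_inr, Prod.mk.injEq] at hxy
          have h2 := hxy.2
          rw [hxy.1] at h2
          exact absurd (hg _ h2) (by simp)
        · simp only [G', Sum.elim_inl, Sum.elim_inr, Prod.mk.injEq] at hxy
          have h2 := hxy.2
          rw [hxy.1] at h2
          exact absurd (hg _ h2) (by simp)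
        · simp only [G', Sum.elim_inr, Prod.mk.injEq] at hxy
          have h2 := hxy.2
          rw [hxy.1] at h2
          have h3 := Sum.inr_injective (hg _ h2)
          rw [hidx (Prod.ext hxy.1 h3)]
      exact finProdFinEquiv.injective.comp hG'
    · intro i
      have h1 := hg' (idx i).1 (idx i).2
      refine ⟨?_, h1.2⟩
      change (finProdFinEquiv.symm (finProdFinEquiv (G' (Sum.inl i)))).1 =
        (finProdFinEquiv.symm (finProdFinEquiv (G' (Sum.inr i)))).1 ∧
        F.Adj (finProdFinEquiv.symm (finProdFinEquiv (G' (Sum.inl i)))).2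
          (finProdFinEquiv.symm (finProdFinEquiv (G' (Sum.inr i)))).2
      rw [Equiv.symm_apply_apply, Equiv.symm_apply_apply]
      exact ⟨rfl, h1.1⟩

theorem edges_ge {n : ℕ} (G : SimpleGraph (Fin n)) (hG : ∀ v, ∃ w, G.Adj v w) :
    n ≤ 2 * G.edgeSet.ncard := by
  classical
  have h1 := G.sum_degrees_eq_twice_card_edges
  have h2 : ∑ v : Fin n, 1 ≤ ∑ v : Fin n, G.degree v := by
    apply Finset.sum_le_sum
    intro v _
    obtain ⟨w, hw⟩ := hG v
    exact Finset.card_pos.2 ⟨w, (G.mem_neighborFinset v w).2 hw⟩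
  have h3 : G.edgeSet.ncard = G.edgeFinset.card := by
    rw [← SimpleGraph.coe_edgeFinset, Set.ncard_coe_finset]
  rw [h3, ← h1]
  simpa using h2

/-- The full statement. -/
theorem main (k : ℕ → ℕ) (G : ∀ n, SimpleGraph (Fin (k n)))
    (hk : Filter.Tendsto k Filter.atTop Filter.atTop)
    (hD : ∃ D : ℕ, ∀ n v, ((G n).neighborSet v).ncard ≤ D)
    (hiso : ∀ n v, ∃ w, (G n).Adj v w) (ε : ℝ) (hε : 0 < ε) :
    ∃ N : ℕ, ∀ n ≥ N, ∃ T : ℕ, ∀ t ≥ T,
      ((sInf {e : ℕ | ∃ (m : ℕ) (F : SimpleGraph (Fin m)), F.edgeSet.ncard = e ∧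
          ∀ R : SimpleGraph (Fin m), R ≤ F →
            (∃ f : Fin (k n) → Fin m, Function.Injective f ∧
                ∀ a b, (G n).Adj a b → R.Adj (f a) (f b)) ∨
            (∃ g : Fin t ⊕ Fin t → Fin m, Function.Injective g ∧
                ∀ i, F.Adj (g (Sum.inl i)) (g (Sum.inr i)) ∧
                  ¬ R.Adj (g (Sum.inl i)) (g (Sum.inr i)))} : ℕ) : ℝ)
        / ((t : ℝ) * (((G n).edgeSet.ncard : ℕ) : ℝ)) ≤ ε := by
  obtain ⟨D, hD⟩ := hD
  obtain ⟨n0, hn0⟩ := exists_block (D + 1) (by omega) (ε / 4) (by positivity)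
  obtain ⟨N0, hN0⟩ := Filter.eventually_atTop.1 (hk.eventually_ge_atTop (max n0 1))
  refine ⟨N0, fun n hn => ?_⟩
  have hkn := hN0 n hn
  have hkn0 : n0 ≤ k n := (le_max_left _ _).trans hkn
  have hkn1 : 1 ≤ k n := (le_max_right _ _).trans hkn
  obtain ⟨N, s, F, hs, hFe, hF⟩ := hn0 (k n) hkn0
  have hF' := hF (G n) (fun v => (hD n v).trans (Nat.le_succ _))
  refine ⟨s, fun t ht => ?_⟩
  set S : Set ℕ := {e : ℕ | ∃ (m : ℕ) (F : SimpleGraph (Fin m)), F.edgeSet.ncard = e ∧
          ∀ R : SimpleGraph (Fin m), R ≤ F →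
            (∃ f : Fin (k n) → Fin m, Function.Injective f ∧
                ∀ a b, (G n).Adj a b → R.Adj (f a) (f b)) ∨
            (∃ g : Fin t ⊕ Fin t → Fin m, Function.Injective g ∧
                ∀ i, F.Adj (g (Sum.inl i)) (g (Sum.inr i)) ∧
                  ¬ R.Adj (g (Sum.inl i)) (g (Sum.inr i)))} with hS
  set κ := t / s + 1 with hκ
  have hκs : t ≤ κ * s := by
    have := Nat.lt_div_mul_add (a := t) (b := s) (by omega)
    rw [hκ, Nat.add_mul, one_mul]; omega
  have hκs2 : κ * s ≤ 2 * t := by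
    have := Nat.div_mul_le_self t s
    rw [hκ, Nat.add_mul, one_mul]; omega
  have hmem : (copies F κ).edgeSet.ncard ∈ S :=
    ⟨κ * N, copies F κ, rfl, fun R hR => copies_ramsey (G n) F hF' κ t hκs R hR⟩
  have h1 : sInf S ≤ κ * F.edgeSet.ncard := (Nat.sInf_le hmem).trans (copies_edges F κ)
  have h2 : ((sInf S : ℕ) : ℝ) ≤ κ * (ε / 4 * s * k n) := by
    have : ((sInf S : ℕ) : ℝ) ≤ κ * (F.edgeSet.ncard : ℝ) := by exact_mod_cast h1
    refine this.trans ?_
    gcongr
  have h3 : (k n : ℝ) ≤ 2 * ((G n).edgeSet.ncard : ℝ) := by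
    exact_mod_cast edges_ge (G n) (hiso n)
  have ht1 : (1 : ℝ) ≤ t := by exact_mod_cast hs.trans ht
  have hk1 : (1 : ℝ) ≤ k n := by exact_mod_cast hkn1
  have hκsR : (κ : ℝ) * s ≤ 2 * t := by exact_mod_cast hκs2
  have hE : (0 : ℝ) < ((G n).edgeSet.ncard : ℝ) := by linarith
  rw [div_le_iff₀ (by positivity)]
  calc ((sInf S : ℕ) : ℝ) ≤ κ * (ε / 4 * s * k n) := h2
    _ = (κ * s) * (ε / 4 * k n) := by ring
    _ ≤ (2 * t) * (ε / 4 * (2 * ((G n).edgeSet.ncard : ℝ))) := by gcongr
    _ = ε * ((t : ℝ) * (((G n).edgeSet.ncard : ℕ) : ℝ)) := by ring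

end Run7.h683.SR
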